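import Pool.Agent.MP_81f5b7_pr.H66.Spec

/-! Concentration along the lazy labelling. -/

set_option linter.unusedSectionVars false

namespace Pool.Agent.MP_81f5b7_pr.H66

open Finset
open scoped Classical

namespace CONC

variable {V : Type} [Fintype V] [DecidableEq V]

theorem pick_some {a : C3} {t : St V} {z : V × C3} (h : pick a t = some z) :
    t.lab z.1 = some z.2 ∧ t.d z.1 < t.s := by
  unfold pick at h
  split_ifs at h with h1 h2
  · obtain rfl := Option.some.inj h
    exact h1.choose_spec
  · obtain rfl := Option.some.inj h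
    exact h2.choose_spec

theorem mem_tg {τ : V → C3} {t : St V} {c : C3} {y : V} :
    y ∈ tg τ t c ↔ t.lab y = none ∧ τ y ≠ c := by simp [tg]

theorem inj (j : ℕ) (x : V) : Function.Injective fun y : V => (j, s(x, y)) :=
  fun _ _ h => Sym2.congr_right.1 (Prod.ext_iff.1 h).2

/-- cells that were not looked at -/
noncomputable def fr (m : ℕ) (t : St V) : Finset (ℕ × Sym2 V) :=
  (range m ×ˢ univ).filter fun p => ∀ w ∈ p.2, t.lab w = none ∨ t.d w ≤ p.1

theorem mem_fr {m : ℕ} {t : St V} {p : ℕ × Sym2 V} :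
    p ∈ fr m t ↔ p.1 < m ∧ ∀ w ∈ p.2, t.lab w = none ∨ t.d w ≤ p.1 := by simp [fr]

theorem cell_iff {τ : V → C3} {t : St V} {z : V × C3} {B : Finset (ℕ × Sym2 V)} {y : V}
    (hy : y ∈ tg τ t z.2) : (t.d z.1, s(z.1, y)) ∈ B ∩ (tg τ t z.2).image
      (fun y => (t.d z.1, s(z.1, y))) ↔ (t.d z.1, s(z.1, y)) ∈ B := by
  rw [mem_inter]
  exact and_iff_left (mem_image_of_mem _ hy)

/-- the lazy labelling as an exploration -/
noncomputable def mach (τ : V → C3) (a : C3) (m : ℕ) : Mach (St V) (ℕ × Sym2 V) where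
  Q := lzQ τ a
  nx := lzN τ a m
  fr := fr m
  Inv t := t.s ≤ m
  loc t B := by
    unfold lzN lzQ
    cases pick a t with
    | none => rfl
    | some z =>
      simp only
      congr 1
      funext y
      exact if_congr (and_congr_right fun hy => (cell_iff hy).symm) rfl rfl
  inv t B h := by
    unfold lzN
    cases pick a t with
    | none => exact min_le_right _ _
    | some z => exact h
  sub t h := by
    unfold lzQ
    cases hp : pick a t with
    | none => exact empty_subset _
    | some z =>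
      intro p hp'
      obtain ⟨y, hy, rfl⟩ := mem_image.1 hp'
      refine mem_fr.2 ⟨(pick_some hp).2.trans_le h, fun w hw => ?_⟩
      rcases Sym2.mem_iff.1 hw with rfl | rfl
      · exact Or.inr le_rfl
      · exact Or.inl (mem_tg.1 hy).1
  shr t B h := by
    unfold lzN lzQ
    cases hp : pick a t with
    | none => exact fun p hp' => mem_sdiff.2 ⟨mem_fr.2 (mem_fr.1 hp'), notMem_empty _⟩
    | some z =>
      intro p hp'
      obtain ⟨h1, h2⟩ := mem_fr.1 hp'
      have h3 : ∀ w ∈ p.2, t.lab w = none ∨ Function.update t.d z.1 (t.d z.1 + 1) w ≤ p.1 :=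
        fun w hw => (h2 w hw).imp_left fun h4 => by
          simp only at h4
          split_ifs at h4
          exact h4
      refine mem_sdiff.2 ⟨mem_fr.2 ⟨h1, fun w hw => (h3 w hw).imp_right fun h4 => ?_⟩, fun h4 => ?_⟩
      · refine le_trans ?_ h4
        by_cases e : w = z.1
        · rw [e, Function.update_self]
          exact Nat.le_succ _
        · rw [Function.update_of_ne e]
      · obtain ⟨y, _, rfl⟩ := mem_image.1 h4
        rcases h3 z.1 (Sym2.mem_mk_left _ _) with h5 | h5
        · rw [(pick_some hp).1] at h5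
          exact Option.some_ne_none _ h5
        · rw [Function.update_self] at h5
          exact Nat.not_succ_le_self _ h5

theorem sum_fib (τ : V → C3) (g : C3 → ℝ) (A : Finset V) :
    ∑ c, g c * ((A.filter fun y => τ y = c).card : ℝ) = ∑ y ∈ A, g (τ y) := by
  rw [← sum_fiberwise (s := A) (g := τ)]
  refine sum_congr rfl fun c _ => ?_
  rw [sum_congr rfl fun y hy => by rw [(mem_filter.1 hy).2], sum_const, nsmul_eq_mul, mul_comm]

theorem one_le {q t r : ℝ} (h0 : 0 ≤ q) (ht : |t| ≤ r) (hr : r ≤ 1) :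
    1 - q + q * Real.exp t ≤ Real.exp (q * t + r ^ 2 * q) := by
  have h2 := (abs_le.1 (Real.abs_exp_sub_one_sub_id_le (ht.trans hr))).2
  have h3 : t ^ 2 ≤ r ^ 2 := by
    rw [← sq_abs t]
    exact pow_le_pow_left₀ (abs_nonneg _) ht 2
  have h4 := Real.add_one_le_exp (q * t + r ^ 2 * q)
  nlinarith [mul_le_mul_of_nonneg_left (h2.trans h3) h0]

theorem step (τ : V → C3) (a : C3) {q : ℝ} (g : C3 → ℝ) {G u : ℝ} (h0 : 0 ≤ q) (h1 : q ≤ 1)
    (hg : ∀ c, |g c| ≤ G) (hu : 0 ≤ u) (hG : u * G ≤ 1) (t : St V) :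
    Ex q (lzQ τ a t) (fun B => Real.exp (u * ∑ c, g c * (lzX τ a t B c - q * lzM τ a t c) -
      (u * G) ^ 2 * (q * Fintype.card V)) * 1) ≤ 1 := by
  unfold lzQ lzX lzM rc
  cases hp : pick a t with
  | none =>
    refine Ex_le h0 h1 fun B _ => ?_
    rw [mul_one, Real.exp_le_one_iff]
    have : 0 ≤ (u * G) ^ 2 * (q * Fintype.card V) := by positivity
    simpa using this
  | some z =>
    have e1 : ∀ c, (((if Option.map Prod.snd (some z) = none ∨ Option.map Prod.snd (some z) = some c
        then 0 else t.U τ c : ℕ)) : ℝ) = ((tg τ t z.2).filter fun y => τ y = c).card := fun c => by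
      congr 1
      by_cases e : z.2 = c
      · rw [if_pos (by simpa using e), eq_comm, card_eq_zero, filter_eq_empty_iff]
        exact fun y hy h => (mem_tg.1 hy).2 (h.trans e.symm)
      · rw [if_neg (by simpa using e), St.U]
        congr 1
        ext y
        simp only [mem_filter, mem_univ, true_and, mem_tg]
        exact ⟨fun h => ⟨⟨h.1, fun h' => e (h'.symm.trans h.2)⟩, h.2⟩, fun h => ⟨h.1.1, h.2⟩⟩
    simp only [e1]
    rw [Ex_image (inj _ _).injOn, Ex_congr (G := fun A => (∏ y ∈ A, Real.exp (u * g (τ y))) *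
      Real.exp (-(∑ y ∈ tg τ t z.2, q * (u * g (τ y)) + (u * G) ^ 2 * (q * Fintype.card V)))),
      Ex_mul', Ex_prod', Real.exp_neg, ← div_eq_mul_inv, div_le_one (Real.exp_pos _)]
    · refine (prod_le_prod (g := fun y => Real.exp (q * (u * g (τ y)) + (u * G) ^ 2 * q))
        (fun y _ => add_nonneg (sub_nonneg.2 h1) (by positivity)) fun y _ => one_le h0 ?_ hG).trans ?_
      · rw [abs_mul, abs_of_nonneg hu]
        exact mul_le_mul_of_nonneg_left (hg _) hu
      · rw [← Real.exp_sum, Real.exp_le_exp, sum_add_distrib, sum_const, nsmul_eq_mul]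
        have h2 : ((tg τ t z.2).card : ℝ) ≤ Fintype.card V := Nat.cast_le.2 (card_le_univ _)
        have h3 : 0 ≤ (u * G) ^ 2 * q := by positivity
        nlinarith [mul_le_mul_of_nonneg_right h2 h3]
    · intro A hA
      have e2 : ∀ c, ((tg τ t z.2).filter fun y => τ y = c ∧ (t.d z.1, s(z.1, y)) ∈
          A.image fun y => (t.d z.1, s(z.1, y))) = A.filter fun y => τ y = c := fun c => by
        ext y
        simp only [mem_filter, (inj _ _).mem_finset_image]
        exact ⟨fun h => ⟨h.2.2, h.2.1⟩, fun h => ⟨hA h.1, h.2, h.1⟩⟩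
      simp only [e2]
      rw [mul_one, ← Real.exp_sum, ← Real.exp_add]
      congr 1
      simp only [mul_sub, sum_sub_distrib, mul_left_comm _ q, ← mul_sum, sum_fib]
      ring

end CONC

theorem rowCONC : SCONC := by
  intro V _ _ τ a m A σ q g G u x k h0 h1 hg hu hG
  have key := mart (CONC.mach τ a m) h0 h1 (fun t B => u * ∑ c, g t c *
    (lzX τ a t B c - q * lzM τ a t c) - (u * G) ^ 2 * (q * Fintype.card V)) ?_ (fun _ => 1)
    (fun t _ => CONC.step τ a (g t) h0 h1 (hg t) hu hG t) k
    ⟨0, fun v => if v ∈ A then some (σ v) else none, fun _ => 0⟩ (range m ×ˢ univ)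
    (Nat.zero_le m) (filter_subset _ _)
  · refine le_trans (Ex_mono h0 h1 fun W _ => ?_) (((Ex_mul _ _).trans_le
      (mul_le_mul_of_nonneg_left key (Real.exp_pos _).le)).trans_eq (mul_one _))
    refine ind_le (by positivity) fun h => ?_
    rw [mul_one, ← Real.exp_add, sum_sub_distrib, ← mul_sum, sum_const, card_range, nsmul_eq_mul,
      Real.one_le_exp_iff]
    have h2 := mul_le_mul_of_nonneg_left h hu
    exact le_trans (sub_nonneg.2 h2) (le_of_eq (by
      show _ = _ + (u * ∑ i ∈ range k, ∑ c, g (lz τ a m A σ W i) c *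
        (lzX τ a (lz τ a m A σ W i) W c - q * lzM τ a (lz τ a m A σ W i) c) - _)
      ring))
  · intro t B
    have e : ∀ c, lzX τ a t B c = lzX τ a t (B ∩ lzQ τ a t) c := fun c => by
      unfold lzX lzQ
      cases pick a t with
      | none => rfl
      | some z =>
        exact congrArg card (filter_congr fun y hy => and_congr_right fun _ =>
          (CONC.cell_iff hy).symm)
    show _ = u * ∑ c, g t c * (lzX τ a t (B ∩ lzQ τ a t) c - q * lzM τ a t c) - _
    simp only [← e]

end Pool.Agent.MP_81f5b7_pr.H66
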